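import Mathlib

/-!
# Sandpile groups of Cayley graphs of `𝔽₂^r` are not determined by the eigenvalues

Let `r = 3` and index the nonzero vectors by `1, …, 7` (binary digits).  The multisets with
multiplicities `(1,2,2,2,0,1,1)` and `(1,1,1,1,1,1,3)` have `gcd` one and the same eigenvalues
`0, 8, 8, 8, 12, 12, 12, 12`.  The 2-torsion of the sandpile group is the kernel of the Laplacian
modulo `2`, modulo constants.  It has `2^5` elements for the first multiset and `2^6` for the second.
-/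

set_option autoImplicit false

namespace Pool.Agent.Results.MP_f0ff61_co.SameEigenvalues

open Finset

/-- The space `𝔽₂^r`. -/
abbrev Vec (r : ℕ) : Type := Fin r → ZMod 2

/-- `M` is a generator multiset: a multiset of nonzero vectors which spans `𝔽₂^r`. -/
def IsGenerator {r : ℕ} (M : Multiset (Vec r)) : Prop :=
  (0 : Vec r) ∉ M ∧ Submodule.span (ZMod 2) {v : Vec r | v ∈ M} = ⊤

/-- The `gcd` of the positive multiplicities. -/
def gcdMult {r : ℕ} (M : Multiset (Vec r)) : ℕ := M.toFinset.gcd fun v => M.count v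

/-- The Laplacian of the Cayley graph: `n` on the diagonal and minus the number of `v` in `M` with
`u + v = w` elsewhere. -/
def laplacian {r : ℕ} (M : Multiset (Vec r)) : Matrix (Vec r) (Vec r) ℤ :=
  fun u w => if u = w then (M.card : ℤ) else -(M.countP (fun v => u + v = w) : ℤ)

/-- The cokernel of the Laplacian. -/
abbrev Coker {r : ℕ} (M : Multiset (Vec r)) : Type :=
  (Vec r → ℤ) ⧸ LinearMap.range (laplacian M).mulVecLin

/-- The sandpile group: the torsion subgroup of the cokernel of the Laplacian. -/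
abbrev Sandpile {r : ℕ} (M : Multiset (Vec r)) : Type := AddCommGroup.torsion (Coker M)

/-- The eigenvalue `λ_u = 2 #{i : u · v_i = 1}`. -/
def eigenvalue {r : ℕ} (M : Multiset (Vec r)) (u : Vec r) : ℕ :=
  2 * M.countP (fun v => u ⬝ᵥ v = 1)

section general

variable {n : Type} [Fintype n] [DecidableEq n]

/-- The kernel modulo two, normalised at `i₀`. -/
abbrev Ker2 (L : Matrix n n ℤ) (i₀ : n) : Type :=
  {y : n → ZMod 2 // y i₀ = 0 ∧ (L.map (Int.castRingHom (ZMod 2))).mulVec y = 0}

/-- The 2-torsion of the torsion of the cokernel. -/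
abbrev Tor2 (L : Matrix n n ℤ) : Type :=
  {x : AddCommGroup.torsion ((n → ℤ) ⧸ LinearMap.range L.mulVecLin) // 2 • x = 0}

theorem tor_to_ker (L : Matrix n n ℤ) (i₀ : n) (h1 : L.mulVec (fun _ => 1) = 0) :
    ∃ f : Tor2 L → Ker2 L i₀, Function.Injective f := by
  have h0 : ∀ x : Tor2 L, ∃ v y : n → ℤ, Submodule.Quotient.mk v = (x.1.1 : (n → ℤ) ⧸ LinearMap.range L.mulVecLin) ∧
      L.mulVec y = 2 • v ∧ y i₀ = 0 := by
    rintro ⟨⟨x, hx⟩, h⟩
    obtain ⟨v, rfl⟩ := Submodule.Quotient.mk_surjective _ x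
    have h2 : (Submodule.Quotient.mk (2 • v) : (n → ℤ) ⧸ LinearMap.range L.mulVecLin) = 0 := by
      have := congrArg Subtype.val h
      exact this
    rw [Submodule.Quotient.mk_eq_zero] at h2
    obtain ⟨y, hy⟩ := h2
    refine ⟨v, y - y i₀ • (fun _ => 1), rfl, ?_, by simp⟩
    rw [Matrix.mulVec_sub, Matrix.mulVec_smul, h1, smul_zero, sub_zero]
    exact hy
  choose v y hv hy hy0 using h0
  refine ⟨fun x => ⟨fun i => (y x i : ZMod 2), by simp [hy0], ?_⟩, ?_⟩
  · ext i
    have h3 : ((L.mulVec (y x) i : ℤ) : ZMod 2) = 0 := by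
      rw [hy]
      simp only [Pi.smul_apply, nsmul_eq_mul, Int.cast_mul]
      have : ((2 : ℕ) : ZMod 2) = 0 := by decide
      simp [this]
      left
      decide
    rw [Pi.zero_apply, ← h3]
    simp [Matrix.mulVec, dotProduct]
  · intro a b hab
    have h4 : ∀ i, ((y a i : ℤ) : ZMod 2) = (y b i : ZMod 2) := fun i =>
      congrFun (congrArg Subtype.val hab) i
    have h5 : ∀ i, ∃ z : ℤ, y a i = y b i + 2 * z := by
      intro i
      have := (ZMod.intCast_eq_intCast_iff_dvd_sub _ _ 2).1 (h4 i)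
      obtain ⟨z, hz⟩ := this
      exact ⟨-z, by push_cast at hz; linarith⟩
    choose z hz using h5
    have h6 : y a = y b + 2 • z := by
      ext i
      simp [hz i]
    have h7 : L.mulVec z = v a - v b := by
      have : 2 • L.mulVec z = 2 • (v a - v b) := by
        rw [smul_sub, ← hy, ← hy, h6, Matrix.mulVec_add, add_sub_cancel_left, Matrix.mulVec_smul]
      ext i
      have h8 := congrFun this i
      simp only [Pi.smul_apply, nsmul_eq_mul] at h8
      have : ((2 : ℕ) : ℤ) ≠ 0 := by norm_num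
      exact mul_left_cancel₀ this h8
    apply Subtype.ext
    apply Subtype.ext
    rw [← hv a, ← hv b, Submodule.Quotient.eq, ← h7]
    exact ⟨z, rfl⟩

theorem ker_to_tor (L : Matrix n n ℤ) (i₀ : n)
    (hL : ∀ x, L.mulVec x = 0 → ∀ i j, x i = x j) :
    ∃ f : Ker2 L i₀ → Tor2 L, Function.Injective f := by
  let l : Ker2 L i₀ → n → ℤ := fun y i => ((y.1 i).val : ℤ)
  have hl : ∀ y i, ((l y i : ℤ) : ZMod 2) = y.1 i := by
    intro y i
    simp [l]
  have h0 : ∀ y : Ker2 L i₀, ∃ v : n → ℤ, L.mulVec (l y) = 2 • v := by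
    intro y
    have h1 : ∀ i, ∃ v : ℤ, L.mulVec (l y) i = 2 * v := by
      intro i
      have h2 : ((L.mulVec (l y) i : ℤ) : ZMod 2) = 0 := by
        rw [← Pi.zero_apply (M := fun _ => ZMod 2) i, ← y.2.2]
        simp only [Matrix.mulVec, dotProduct, Int.cast_sum, Int.cast_mul, hl, Matrix.map_apply]
        rfl
      rw [ZMod.intCast_zmod_eq_zero_iff_dvd] at h2
      obtain ⟨v, hv⟩ := h2
      exact ⟨v, by simpa using hv⟩
    choose v hv using h1
    exact ⟨v, by ext i; simp [hv i]⟩
  choose v hv using h0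
  have hz : ∀ y, 2 • (Submodule.Quotient.mk (v y) : (n → ℤ) ⧸ LinearMap.range L.mulVecLin) = 0 := by
    intro y
    change (Submodule.Quotient.mk (2 • v y) : (n → ℤ) ⧸ LinearMap.range L.mulVecLin) = 0
    rw [Submodule.Quotient.mk_eq_zero, ← hv]
    exact ⟨l y, rfl⟩
  refine ⟨fun y => ⟨⟨Submodule.Quotient.mk (v y), ?_⟩, Subtype.ext (hz y)⟩, ?_⟩
  · exact isOfFinAddOrder_iff_nsmul_eq_zero.2 ⟨2, by norm_num, hz y⟩
  · intro a b hab
    have h1 : (Submodule.Quotient.mk (v a) : (n → ℤ) ⧸ LinearMap.range L.mulVecLin) =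
        Submodule.Quotient.mk (v b) := congrArg (fun x : Tor2 L => (x.1.1 : (n → ℤ) ⧸ LinearMap.range L.mulVecLin)) hab
    rw [Submodule.Quotient.eq] at h1
    obtain ⟨z, hz1⟩ := h1
    have h2 : L.mulVec (l a - l b - 2 • z) = 0 := by
      rw [Matrix.mulVec_sub, Matrix.mulVec_sub, hv, hv, Matrix.mulVec_smul]
      have : L.mulVec z = v a - v b := hz1
      rw [this, smul_sub, sub_self]
    have h3 := hL _ h2
    apply Subtype.ext
    ext i
    have h4 := congrArg (Int.cast : ℤ → ZMod 2) (h3 i i₀)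
    have h5 : ∀ j, (((l a - l b - 2 • z) j : ℤ) : ZMod 2) = a.1 j - b.1 j := by
      intro j
      have h6 : (l a - l b - 2 • z) j = l a j - l b j - 2 * z j := by simp
      have h7 : ((2 : ℤ) : ZMod 2) = 0 := by decide
      rw [h6, Int.cast_sub, Int.cast_sub, Int.cast_mul, hl, hl, h7, zero_mul, sub_zero]
    rw [h5, h5, a.2.1, b.2.1, sub_zero] at h4
    exact sub_eq_zero.1 h4

end general

/-- Enumeration of `𝔽₂³`. -/
def idx : Vec 3 ≃ Fin 8 where
  toFun u := if u 0 = 0 then (if u 1 = 0 then (if u 2 = 0 then 0 else 4) else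
      (if u 2 = 0 then 2 else 6)) else (if u 1 = 0 then (if u 2 = 0 then 1 else 5) else
      (if u 2 = 0 then 3 else 7))
  invFun i := ![![0, 0, 0], ![1, 0, 0], ![0, 1, 0], ![1, 1, 0], ![0, 0, 1], ![1, 0, 1], ![0, 1, 1],
    ![1, 1, 1]] i
  left_inv := by decide +kernel
  right_inv := by decide +kernel

/-- The vector with index `i`. -/
def e (i : Fin 8) : Vec 3 := idx.symm i

/-- The first multiset. -/
def M₀ : Multiset (Vec 3) := {e 1, e 2, e 2, e 3, e 3, e 4, e 4, e 6, e 7}

/-- The second multiset. -/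
def M₁ : Multiset (Vec 3) := {e 1, e 2, e 3, e 4, e 5, e 6, e 7, e 7, e 7}

theorem span_top (M : Multiset (Vec 3)) (h1 : e 1 ∈ M) (h2 : e 2 ∈ M) (h3 : e 4 ∈ M) :
    Submodule.span (ZMod 2) {v : Vec 3 | v ∈ M} = ⊤ := by
  rw [eq_top_iff]
  intro v _
  have h : ∀ v : Vec 3, v = v 0 • e 1 + v 1 • e 2 + v 2 • e 4 := by decide +kernel
  rw [h v]
  refine Submodule.add_mem _ (Submodule.add_mem _ ?_ ?_) ?_
  · exact Submodule.smul_mem _ _ (Submodule.subset_span h1)
  · exact Submodule.smul_mem _ _ (Submodule.subset_span h2)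
  · exact Submodule.smul_mem _ _ (Submodule.subset_span h3)

theorem gen₀ : IsGenerator M₀ :=
  ⟨by decide +kernel, span_top _ (by decide +kernel) (by decide +kernel) (by decide +kernel)⟩

theorem gen₁ : IsGenerator M₁ :=
  ⟨by decide +kernel, span_top _ (by decide +kernel) (by decide +kernel) (by decide +kernel)⟩

/-- The second Laplacian as an explicit matrix. -/
def L₁ : Matrix (Fin 8) (Fin 8) ℤ := fun i j =>
  if i = j then 9 else if i.val + j.val = 7 then -3 else -1

theorem lap₁ : ∀ i j, laplacian M₁ (e i) (e j) = L₁ i j := by decide +kernel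

/-- The constant matrix `12`. -/
def J12 : Matrix (Fin 8) (Fin 8) ℤ := fun _ _ => 12

theorem poly : L₁ * L₁ - 20 * L₁ + 96 = J12 := by decide +kernel

/-- The kernel of the second Laplacian consists of constants. -/
theorem ker₁ (x : Vec 3 → ℤ) (hx : (laplacian M₁).mulVec x = 0) : ∀ i j, x i = x j := by
  have h1 : L₁.mulVec (fun i => x (e i)) = 0 := by
    ext i
    have h2 := congrFun hx (e i)
    simp only [Matrix.mulVec, dotProduct, Pi.zero_apply] at h2 ⊢
    rw [← idx.symm.sum_comp] at h2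
    rw [← h2]
    exact Finset.sum_congr rfl fun j _ => by rw [← lap₁]; rfl
  have h3 : J12.mulVec (fun i => x (e i)) =
      96 • (fun i => x (e i)) := by
    rw [← poly, Matrix.add_mulVec, Matrix.sub_mulVec, ← Matrix.mulVec_mulVec, h1,
      ← Matrix.mulVec_mulVec, h1, Matrix.mulVec_zero, Matrix.mulVec_zero, sub_zero, zero_add]
    have : (96 : Matrix (Fin 8) (Fin 8) ℤ) = (96 : ℤ) • 1 := by decide +kernel
    rw [this, Matrix.smul_mulVec, Matrix.one_mulVec]
    rfl
  have h4 : ∀ i j : Fin 8, x (e i) = x (e j) := by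
    intro i j
    have h5 := congrFun h3 i
    have h6 := congrFun h3 j
    have h7 : J12.mulVec (fun i => x (e i)) i =
        J12.mulVec (fun i => x (e i)) j := rfl
    rw [h5, h6] at h7
    simp only [Pi.smul_apply, nsmul_eq_mul] at h7
    have h8 : ((96 : ℕ) : ℤ) ≠ 0 := by norm_num
    exact mul_left_cancel₀ h8 h7
  intro i j
  have h9 := h4 (idx i) (idx j)
  simpa [e] using h9

/-- The kernel modulo two in coordinates. -/
abbrev K8 (A : Matrix (Fin 8) (Fin 8) (ZMod 2)) : Type :=
  {y : Fin 8 → ZMod 2 // y 0 = 0 ∧ A.mulVec y = 0}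

theorem ker_congr (M : Multiset (Vec 3)) (A : Matrix (Fin 8) (Fin 8) (ZMod 2))
    (h : ∀ i j, ((laplacian M (e i) (e j) : ℤ) : ZMod 2) = A i j) :
    Nonempty (Ker2 (laplacian M) (e 0) ≃ K8 A) := by
  have key : ∀ y : Vec 3 → ZMod 2, ∀ i : Fin 8,
      ((laplacian M).map (Int.castRingHom (ZMod 2))).mulVec y (e i) =
        A.mulVec (fun j => y (e j)) i := by
    intro y i
    simp only [Matrix.mulVec, dotProduct]
    rw [← idx.symm.sum_comp]
    exact Finset.sum_congr rfl fun j _ => by rw [← h]; rfl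
  refine ⟨⟨fun y => ⟨fun i => y.1 (e i), y.2.1, ?_⟩, fun y => ⟨fun u => y.1 (idx u), ?_, ?_⟩,
    ?_, ?_⟩⟩
  · ext i
    rw [← key, y.2.2]
    rfl
  · have h1 : idx (e 0) = 0 := by decide +kernel
    change y.1 (idx (e 0)) = 0
    rw [h1]
    exact y.2.1
  · ext u
    have h1 := key (fun u => y.1 (idx u)) (idx u)
    have h2 : e (idx u) = u := idx.symm_apply_apply u
    have h3 : (fun j => y.1 (idx (e j))) = y.1 := by
      ext j
      rw [show idx (e j) = j from idx.apply_symm_apply j]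
    rw [h2, h3, y.2.2] at h1
    exact h1
  · intro y
    apply Subtype.ext
    ext u
    change y.1 (e (idx u)) = y.1 u
    rw [show e (idx u) = u from idx.symm_apply_apply u]
  · intro y
    apply Subtype.ext
    ext j
    change y.1 (idx (e j)) = y.1 j
    rw [show idx (e j) = j from idx.apply_symm_apply j]

/-- The first Laplacian modulo two. -/
def A₀ : Matrix (Fin 8) (Fin 8) (ZMod 2) :=
  !![1, 1, 0, 0, 0, 0, 1, 1;
     1, 1, 0, 0, 0, 0, 1, 1;
     0, 0, 1, 1, 1, 1, 0, 0;
     0, 0, 1, 1, 1, 1, 0, 0;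
     0, 0, 1, 1, 1, 1, 0, 0;
     0, 0, 1, 1, 1, 1, 0, 0;
     1, 1, 0, 0, 0, 0, 1, 1;
     1, 1, 0, 0, 0, 0, 1, 1]

theorem card₀ : Fintype.card (K8 A₀) = 32 := by decide +kernel

theorem card₁ : Fintype.card (K8 fun _ _ => 1) = 64 := by decide +kernel

theorem not_iso : IsEmpty (Sandpile M₀ ≃+ Sandpile M₁) := by
  refine ⟨fun f => ?_⟩
  obtain ⟨a, ha⟩ := tor_to_ker (laplacian M₀) (e 0) (by decide +kernel)
  obtain ⟨b, hb⟩ := ker_to_tor (laplacian M₁) (e 0) ker₁
  obtain ⟨c⟩ := ker_congr M₀ A₀ (by decide +kernel)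
  obtain ⟨d⟩ := ker_congr M₁ (fun _ _ => 1) (by decide +kernel)
  let g : Tor2 (laplacian M₁) → Tor2 (laplacian M₀) := fun x =>
    ⟨f.symm x.1, by rw [← map_nsmul, x.2, map_zero]⟩
  have hg : Function.Injective g := by
    intro x y hxy
    apply Subtype.ext
    exact f.symm.injective (congrArg Subtype.val hxy)
  have h1 : Function.Injective (c ∘ a ∘ g ∘ b ∘ d.symm) :=
    c.injective.comp (ha.comp (hg.comp (hb.comp d.symm.injective)))
  have h2 := Fintype.card_le_of_injective _ h1
  rw [card₀, card₁] at h2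
  norm_num at h2

/-- **Main result.**  There are generator multisets `M`, `M'` on `𝔽₂^r` with `gcd` of the
multiplicities one whose Laplacians have the same eigenvalues, even with multiplicities, but whose
sandpile groups are not isomorphic. -/
theorem result : ∃ r : ℕ, 1 ≤ r ∧ ∃ M M' : Multiset (Vec r), IsGenerator M ∧ IsGenerator M' ∧
    gcdMult M = 1 ∧ gcdMult M' = 1 ∧ Set.range (eigenvalue M) = Set.range (eigenvalue M') ∧
    Finset.univ.val.map (eigenvalue M) = Finset.univ.val.map (eigenvalue M') ∧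
    IsEmpty (Sandpile M ≃+ Sandpile M') := by
  have h : Finset.univ.val.map (eigenvalue M₀) = Finset.univ.val.map (eigenvalue M₁) := by
    decide +kernel
  refine ⟨3, by norm_num, M₀, M₁, gen₀, gen₁, by decide +kernel, by decide +kernel, ?_, h, not_iso⟩
  ext k
  have h1 : ∀ M : Multiset (Vec 3), k ∈ Set.range (eigenvalue M) ↔
      k ∈ Finset.univ.val.map (eigenvalue M) := by
    intro M
    simp
  rw [h1, h1, h]

end Pool.Agent.Results.MP_f0ff61_co.SameEigenvalues
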